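import Mathlib

/-!
# Types, weak orthogonality and monster models: basic facts
-/

set_option autoImplicit false

open FirstOrder FirstOrder.Language FirstOrder.Language.Structure Cardinal

universe u v

namespace Pool.Agent.Y562.NWO

section defs

variable {L : FirstOrder.Language.{u, u}} {U : Type u} [L.Structure U]

/-- The complete type over `U` of the tuple `a` of an elementary extension `j : U ↪ₑ N` of `U`: the
set of all formulas, with free variables indexed by `α` and parameters in `U`, true of `a`. -/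
def tp {α : Type} {N : Type u} [L.Structure N] (j : U ↪ₑ[L] N) (a : α → N) :
    Set (L.Formula (α ⊕ U)) :=
  {φ | φ.Realize (Sum.elim a j)}

/-- `p` is a complete type over `U` in variables indexed by `α`: it is the type of a tuple of some
elementary extension of `U`. -/
def IsGlobalType {α : Type} (p : Set (L.Formula (α ⊕ U))) : Prop :=
  ∃ (N : Type u) (_ : L.Structure N) (j : U ↪ₑ[L] N) (a : α → N), p = tp j a

/-- `p` is invariant over `A`: it is fixed by every automorphism of `U` fixing `A` pointwise. -/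
def Invariant {α : Type} (A : Set U) (p : Set (L.Formula (α ⊕ U))) : Prop :=
  ∀ σ : U ≃[L] U, (∀ a ∈ A, σ a = a) →
    ∀ φ : L.Formula (α ⊕ U), φ ∈ p ↔ φ.relabel (Sum.map id σ) ∈ p

/-- `p` and `q` are weakly orthogonal: `p(x) ∪ q(y)` determines a complete type over `U` in the
variables `(x, y)`. -/
def WOrth {α β : Type} (p : Set (L.Formula (α ⊕ U))) (q : Set (L.Formula (β ⊕ U))) : Prop :=
  ∀ (N N' : Type u) [L.Structure N] [L.Structure N'] (j : U ↪ₑ[L] N) (j' : U ↪ₑ[L] N')
    (a : α → N) (b : β → N) (a' : α → N') (b' : β → N'),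
    tp j a = p → tp j b = q → tp j' a' = p → tp j' b' = q →
      tp j (Sum.elim a b) = tp j' (Sum.elim a' b')

/-- the tuple `b` of `U` realises the restriction of `q` to `B` -/
def Realizes {β : Type} (B : Set U) (q : Set (L.Formula (β ⊕ U))) (b : β → U) : Prop :=
  ∀ φ : L.Formula (β ⊕ B), φ.relabel (Sum.map id (fun u : B => (u : U))) ∈ q ↔
    φ.Realize (Sum.elim b (fun u : B => (u : U)))

/-- `r` is the tensor product `p ⊗ q`, where `p` is invariant over `A`: for every finite `F` there
is a tuple of `U` realising the restriction of `q` to `A ∪ F`, and for every such tuple `b` and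
every formula `φ(x, y)` over `A ∪ F` one has `φ(x, y) ∈ r` if and only if `φ(x, b) ∈ p`. -/
def IsTensor {α β : Type} (A : Set U) (p : Set (L.Formula (α ⊕ U))) (q : Set (L.Formula (β ⊕ U)))
    (r : Set (L.Formula ((α ⊕ β) ⊕ U))) : Prop :=
  ∀ F : Set U, F.Finite → (∃ b : β → U, Realizes (A ∪ F) q b) ∧
    ∀ b : β → U, Realizes (A ∪ F) q b → ∀ φ : L.Formula ((α ⊕ β) ⊕ (A ∪ F : Set U)),
      (φ.relabel (Sum.map id (fun u : (A ∪ F : Set U) => (u : U))) ∈ r ↔
        φ.relabel (Sum.elim (Sum.map id b) (fun u : (A ∪ F : Set U) => Sum.inr (u : U))) ∈ p)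

/-- `U` is a monster model at the cardinal `κ`: `κ` is bigger than `ℵ₀` and than the cardinality of
the language, and `U` is `κ`-saturated and strongly `κ`-homogeneous. -/
structure IsMonster (κ : Cardinal.{u}) (L : FirstOrder.Language.{u, u}) (U : Type u) [L.Structure U] :
    Prop where
  aleph0_lt : ℵ₀ < κ
  card_lt : L.card < κ
  /-- `U` is `κ`-saturated: a set of formulas in finitely many variables with parameters in a set
  `A` of cardinality less than `κ` every finite subset of which is satisfied in `U` is satisfied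
  in `U`. -/
  saturated : ∀ (α : Type) [Finite α] (A : Set U), #A < κ → ∀ S : Set (L.Formula (α ⊕ A)),
    (∀ S₀ ⊆ S, S₀.Finite → ∃ a : α → U, ∀ φ ∈ S₀, φ.Realize (Sum.elim a (fun u : A => (u : U)))) →
      ∃ a : α → U, ∀ φ ∈ S, φ.Realize (Sum.elim a (fun u : A => (u : U)))
  /-- `U` is strongly `κ`-homogeneous: every partial elementary map of `U` whose domain has
  cardinality less than `κ` extends to an automorphism. -/
  homogeneous : ∀ (A : Set U) (f : A → U), #A < κ →
    (∀ φ : L.Formula A, φ.Realize (fun u : A => (u : U)) ↔ φ.Realize f) →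
      ∃ σ : U ≃[L] U, ∀ u : A, σ u = f u

/-- the theory of `U` is NIP: for every formula `φ(x; y)` there is `n` such that no sequence of `n`
tuples is shattered by `φ`. -/
def IsNIP (L : FirstOrder.Language.{u, u}) (U : Type u) [L.Structure U] : Prop :=
  ∀ (m k : ℕ) (φ : L.Formula (Fin m ⊕ Fin k)), ∃ n : ℕ,
    ¬ ∃ (a : Fin n → Fin m → U) (b : Set (Fin n) → Fin k → U),
      ∀ (i : Fin n) (s : Set (Fin n)), φ.Realize (Sum.elim (a i) (b s)) ↔ i ∈ s

end defs

variable {L : FirstOrder.Language.{u, u}} {U : Type u} [L.Structure U]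

/-! ### Elementary facts on formulas -/

/-- finitely many formulas have a conjunction -/
theorem exists_conj {δ : Type*} (S : Set (L.Formula δ)) (hS : S.Finite) :
    ∃ ψ : L.Formula δ, ∀ (N : Type u) [L.Structure N] (v : δ → N),
      ψ.Realize v ↔ ∀ φ ∈ S, φ.Realize v := by
  haveI : Finite S := hS
  refine ⟨Formula.iInf (fun φ : S => (φ : L.Formula δ)), fun N _ v => ?_⟩
  rw [Formula.realize_iInf]
  exact ⟨fun h φ hφ => h ⟨φ, hφ⟩, fun h b => h b b.2⟩

/-- a formula has finitely many parameters -/
theorem finite_params {α : Type*} {γ : Type*} (φ : L.Formula (α ⊕ γ)) :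
    ∃ (F : Finset γ) (ψ : L.Formula (α ⊕ F)), ∀ (N : Type u) [L.Structure N] (x : α → N)
      (c : γ → N), φ.Realize (Sum.elim x c) ↔ ψ.Realize (Sum.elim x (fun i : F => c i)) := by
  classical
  let F : Finset γ := φ.freeVarFinset.toRight
  let f : φ.freeVarFinset → α ⊕ F := fun x => match x with
    | ⟨Sum.inl a, _⟩ => Sum.inl a
    | ⟨Sum.inr c, h⟩ => Sum.inr ⟨c, by simpa [F] using h⟩
  refine ⟨F, φ.restrictFreeVar f, fun N _ x c => ?_⟩
  rw [Formula.Realize, Formula.Realize]
  refine (BoundedFormula.realize_restrictFreeVar (φ := φ) (f := f)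
    (v := Sum.elim x (fun i : F => c i)) (v' := Sum.elim x c) ?_).symm
  rintro ⟨a | a, h⟩ <;> rfl

/-- elementarity for statements with finitely many universal quantifiers -/
theorem el_all {α : Type*} [Finite α] {γ : Type*} {N : Type u} [L.Structure N] (j : U ↪ₑ[L] N)
    (φ : L.Formula (α ⊕ γ)) (c : γ → U) (h : ∀ x : α → U, φ.Realize (Sum.elim x c))
    (x : α → N) : φ.Realize (Sum.elim x (j ∘ c)) := by
  have h1 : ((φ.relabel Sum.swap : L.Formula (γ ⊕ α)).iAlls α).Realize c := by
    rw [Formula.realize_iAlls]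
    intro x
    rw [Formula.realize_relabel]
    have := h x
    have e : Sum.elim c x ∘ Sum.swap = Sum.elim x c := by
      funext i
      rcases i with i | i <;> rfl
    rw [e]
    exact this
  rw [← j.map_formula, Formula.realize_iAlls] at h1
  have h2 := h1 x
  rw [Formula.realize_relabel] at h2
  have e : Sum.elim (j ∘ c) x ∘ Sum.swap = Sum.elim x (j ∘ c) := by
    funext i
    rcases i with i | i <;> rfl
  rwa [e] at h2

theorem el_ex {α : Type*} [Finite α] {γ : Type*} {N : Type u} [L.Structure N] (j : U ↪ₑ[L] N)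
    (φ : L.Formula (α ⊕ γ)) (c : γ → U) (x : α → N) (h : φ.Realize (Sum.elim x (j ∘ c))) :
    ∃ x : α → U, φ.Realize (Sum.elim x c) := by
  by_contra hc
  push Not at hc
  have := el_all j φ.not c (fun x => by rw [Formula.realize_not]; exact hc x) x
  rw [Formula.realize_not] at this
  exact this h

/-- compactness over `U` -/
theorem compact {δ : Type} [Nonempty U] (S : Set (L.Formula (δ ⊕ U)))
    (h : ∀ S₀ ⊆ S, S₀.Finite → ∃ v : δ → U, ∀ φ ∈ S₀, φ.Realize (Sum.elim v id)) :
    ∃ (N : Type u) (_ : L.Structure N) (j : U ↪ₑ[L] N) (v : δ → N),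
      ∀ φ ∈ S, φ.Realize (Sum.elim v j) := by
  classical
  let I := Finset S
  have hv : ∀ F : I, ∃ v : δ → U, ∀ φ ∈ F, (φ : L.Formula (δ ⊕ U)).Realize (Sum.elim v id) := by
    intro F
    obtain ⟨v, hv⟩ := h (Subtype.val '' (F : Set S)) (by rintro _ ⟨φ, _, rfl⟩; exact φ.2)
      (F.finite_toSet.image _)
    exact ⟨v, fun φ hφ => hv φ ⟨φ, hφ, rfl⟩⟩
  choose w hw using hv
  let 𝓤 : Ultrafilter I := Ultrafilter.of Filter.atTop
  let N := (𝓤 : Filter I).Product (fun _ => U)
  let j : U ↪ₑ[L] N :=
    { toFun := fun u => ((fun _ => u : I → U) : (𝓤 : Filter I).Product (fun _ => U))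
      map_formula' := by
        intro n φ x
        have := Ultraproduct.realize_formula_cast (u := 𝓤) (M := fun _ : I => U) φ
          (fun i _ => x i)
        refine this.trans ?_
        simp }
  refine ⟨N, inferInstance, j, fun d => ((fun F => w F d : I → U) :
    (𝓤 : Filter I).Product (fun _ => U)), fun φ hφ => ?_⟩
  have e : (Sum.elim (fun d => ((fun F => w F d : I → U) :
      (𝓤 : Filter I).Product (fun _ => U))) j : δ ⊕ U → N) =
      fun i => ((fun F => Sum.elim (w F) id i : I → U) :
        (𝓤 : Filter I).Product (fun _ => U)) := by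
    funext i
    rcases i with i | i <;> rfl
  rw [e]
  refine (Ultraproduct.realize_formula_cast (u := 𝓤) (M := fun _ : I => U) φ
    (fun i F => Sum.elim (w F) id i)).2 ?_
  have h1 : ∀ᶠ F : I in Filter.atTop, φ.Realize (fun i => Sum.elim (w F) id i) := by
    filter_upwards [Filter.eventually_ge_atTop ({⟨φ, hφ⟩} : I)] with F hF
    exact hw F ⟨φ, hφ⟩ (hF (Finset.mem_singleton_self _))
  exact (Ultrafilter.of_le _) h1

end Pool.Agent.Y562.NWO
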