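import Pool.Agent.Y562.NWO.Types

/-!
# Weak orthogonality and tensor products in NIP theories
-/

set_option autoImplicit false

open FirstOrder FirstOrder.Language FirstOrder.Language.Structure Cardinal

universe u v

namespace Pool.Agent.Y562.NWO

variable {L : FirstOrder.Language.{u, u}} {U : Type u} [L.Structure U] {κ : Cardinal.{u}}
variable {α β α₀ α₁ : Type}

/-- closing a small set under a small system of operations -/
theorem exists_closure (hU : IsMonster κ L U) (lam : Cardinal.{u}) (hlam : lam < κ)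
    (G : Finset U → Set U) (hG : ∀ F, #(G F) ≤ lam) (C₀ : Set U) (hC₀ : #C₀ < κ) :
    ∃ C : Set U, C₀ ⊆ C ∧ #C < κ ∧ ∀ F : Finset U, (F : Set U) ⊆ C → G F ⊆ C := by
  classical
  let μ : Cardinal.{u} := max ℵ₀ (max lam #C₀)
  have hμ : μ < κ := max_lt hU.aleph0_lt (max_lt hlam hC₀)
  have hμ0 : ℵ₀ ≤ μ := le_max_left _ _
  let step : Set U → Set U := fun C => C ∪ ⋃ l : List ↥C, G ((l.map Subtype.val).toFinset)
  let C : ℕ → Set U := fun n => step^[n] C₀
  have hC0 : C 0 = C₀ := rfl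
  have hCs : ∀ n, C (n + 1) = step (C n) := fun n => Function.iterate_succ_apply' _ _ _
  have hcard : ∀ n, #(C n) ≤ μ := by
    intro n
    induction n with
    | zero => exact (le_max_right _ _).trans (le_max_right _ _)
    | succ n ih =>
      rw [hCs]
      refine (mk_union_le _ _).trans ?_
      refine add_le_of_le hμ0 ih ?_
      refine (mk_iUnion_le_sum_mk).trans ?_
      refine (sum_le_sum _ (fun _ => μ) fun l =>
        (hG _).trans ((le_max_left _ _).trans (le_max_right _ _))).trans ?_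
      rw [sum_const, lift_id, lift_id]
      exact mul_le_of_le hμ0 ((mk_list_le_max _).trans (max_le hμ0 ih)) le_rfl
  have hmono : Monotone C := monotone_nat_of_le_succ fun n => by
    rw [hCs]
    exact Set.subset_union_left
  refine ⟨⋃ n, C n, ?_, ?_, ?_⟩
  · rw [← hC0]
    exact Set.subset_iUnion _ _
  · refine lt_of_le_of_lt ?_ hμ
    have h1 := mk_iUnion_le_sum_mk_lift (f := C)
    rw [lift_uzero] at h1
    refine h1.trans ?_
    refine (sum_le_sum _ (fun _ => μ) hcard).trans ?_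
    rw [sum_const, mk_nat, lift_aleph0, lift_id']
    exact mul_le_of_le hμ0 hμ0 le_rfl
  · intro F hF
    have : ∃ n, (F : Set U) ⊆ C n := by
      induction F using Finset.induction_on with
      | empty => exact ⟨0, by simp⟩
      | insert x F hx ih =>
        rw [Finset.coe_insert, Set.insert_subset_iff] at hF
        obtain ⟨n, hn⟩ := ih hF.2
        obtain ⟨m, hm⟩ := Set.mem_iUnion.1 hF.1
        refine ⟨max n m, ?_⟩
        rw [Finset.coe_insert, Set.insert_subset_iff]
        exact ⟨hmono (le_max_right _ _) hm, hn.trans (hmono (le_max_left _ _))⟩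
    obtain ⟨n, hn⟩ := this
    refine Set.Subset.trans ?_ (Set.subset_iUnion C (n + 1))
    rw [hCs]
    refine Set.Subset.trans ?_ Set.subset_union_right
    let l : List ↥(C n) := F.attach.toList.map (fun x => ⟨x.1, hn x.2⟩)
    refine Set.Subset.trans ?_ (Set.subset_iUnion _ l)
    have e : (l.map Subtype.val).toFinset = F := by
      ext x
      simp [l]
    rw [e]

theorem card_formula_le (E : Set U) (δ : Type) [Finite δ] :
    #(L.Formula (δ ⊕ E)) ≤ max ℵ₀ (#E + L.card) := by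
  have h1 : #(L.Formula (δ ⊕ E)) ≤ #(Σ n, L.BoundedFormula (δ ⊕ E) n) :=
    mk_le_of_injective (f := fun φ => (⟨0, φ⟩ : Σ n, L.BoundedFormula (δ ⊕ E) n))
      (fun φ ψ h => eq_of_heq (Sigma.mk.inj h).2)
  refine h1.trans (BoundedFormula.card_le.trans ?_)
  refine max_le (le_max_left _ _) ?_
  rw [lift_id, lift_id, mk_sum]
  have h2 : lift.{u} #δ ≤ ℵ₀ := by
    rw [lift_le_aleph0]
    exact (lt_aleph0_of_finite δ).le
  have h3 : lift.{0} #E = #E := lift_uzero _
  rw [h3, add_assoc]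
  exact add_le_of_le (le_max_left _ _) (h2.trans (le_max_left _ _)) (le_max_right _ _)

/-- Over a small set `E`, weak orthogonality is witnessed by a small set `D`. -/
theorem wo_set (hU : IsMonster κ L U) [Nonempty U] [Finite α] [Finite β]
    {p : Set (L.Formula (α ⊕ U))} {q : Set (L.Formula (β ⊕ U))} (hp : IsGlobalType p)
    (hq : IsGlobalType q) (hw : WOrth p q) {A : Set U} (hqA : Invariant A q) (E : Set U)
    (hAE : A ⊆ E) (hE : #E < κ) :
    ∃ D : Set U, E ⊆ D ∧ #D ≤ max ℵ₀ (#E + L.card) ∧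
      ∀ a b, Realizes D p a → Realizes D q b → Realizes (E ∪ Set.range a) q b := by
  classical
  choose t F ψ χ hψ hχ hh using fun θ : L.Formula ((α ⊕ β) ⊕ E) =>
    worth_formula hp hq hw θ (fun u : E => (u : U))
  have hcard : #(E ∪ ⋃ θ, (F θ : Set U) : Set U) ≤ max ℵ₀ (#E + L.card) := by
    refine (mk_union_le _ _).trans ?_
    refine add_le_of_le (le_max_left _ _) ?_ ?_
    · exact (self_le_add_right _ _).trans (le_max_right _ _)
    · refine (mk_iUnion_le_sum_mk).trans ?_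
      refine (sum_le_sum _ (fun _ => ℵ₀) fun θ => ?_).trans ?_
      · exact (lt_aleph0_of_finite _).le
      · rw [sum_const, lift_id, lift_id]
        exact mul_le_of_le (le_max_left _ _) (card_formula_le (L := L) E (α ⊕ β)) (le_max_left _ _)
  have hsmall : #(E ∪ ⋃ θ, (F θ : Set U) : Set U) < κ :=
    hcard.trans_lt (max_lt hU.aleph0_lt (add_lt_of_lt hU.aleph0_lt.le hE hU.card_lt))
  refine ⟨E ∪ ⋃ θ, (F θ : Set U), Set.subset_union_left, hcard, fun a b ha hb => ?_⟩
  obtain ⟨a', ha'⟩ := exists_realizes hU hp _ hsmall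
  obtain ⟨b', hb'⟩ := exists_realizes hU hq ((E ∪ ⋃ θ, (F θ : Set U)) ∪ Set.range a')
    (small_union hU hsmall (small_finite hU (Set.finite_range _)))
  have hsub : ∀ θ, ∀ i : F θ, (i : U) ∈ (E ∪ ⋃ θ, (F θ : Set U)) := fun θ i =>
    Or.inr (Set.mem_iUnion.2 ⟨θ, i.2⟩)
  obtain ⟨σ, hσ⟩ := hom_tuple hU (Sum.elim (Sum.elim a' b') (fun u : E => (u : U)))
    (Sum.elim (Sum.elim a b) (fun u : E => (u : U))) (by
      rw [Set.Sum.elim_range, Subtype.range_val]
      exact small_union hU (small_finite hU (Set.finite_range _)) hE) (fun θ => by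
      rw [hh θ a b ((ha.apply hp _ (hsub θ) _).1 (hψ θ)) ((hb.apply hq _ (hsub θ) _).1 (hχ θ)),
        hh θ a' b' ((ha'.apply hp _ (hsub θ) _).1 (hψ θ))
          ((hb'.apply hq _ (fun i => Or.inl (hsub θ i)) _).1 (hχ θ))])
  have hfix : ∀ x ∈ E, σ x = x := fun x hx => hσ (Sum.inr ⟨x, hx⟩)
  have h1 := Realizes.map (D' := E ∪ Set.range a) hq hqA σ (fun x hx => hfix x (hAE hx)) (by
    rintro x (hx | ⟨i, rfl⟩)
    · exact ⟨x, Or.inl (Or.inl hx), hfix x hx⟩
    · exact ⟨a' i, Or.inr ⟨i, rfl⟩, hσ (Sum.inl (Sum.inl i))⟩) hb'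
  have e : σ ∘ b' = b := funext fun i => hσ (Sum.inl (Sum.inr i))
  rwa [e] at h1

/-- the elements of the tuples of a list -/
def elts (B : List (β → U)) : Set U := {u | ∃ b ∈ B, u ∈ Set.range b}

omit [L.Structure U] in
theorem elts_nil : elts ([] : List (β → U)) = ∅ := by
  ext x
  simp [elts]

omit [L.Structure U] in
theorem elts_cons (b : β → U) (B : List (β → U)) : elts (b :: B) = Set.range b ∪ elts B := by
  ext x
  simp [elts]

omit [L.Structure U] in
theorem elts_finite [Finite β] (B : List (β → U)) : (elts B).Finite := by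
  induction B with
  | nil => rw [elts_nil]; exact Set.finite_empty
  | cons b B ih => rw [elts_cons]; exact (Set.finite_range b).union ih

/-- `B` is a Morley sequence of `q` over `D` (newest element first) -/
def Morley (D : Set U) (q : Set (L.Formula (β ⊕ U))) : List (β → U) → Prop
  | [] => True
  | b :: B => Realizes (D ∪ elts B) q b ∧ Morley D q B

theorem elts_map_fix {B B' : List (β → U)} {σ : U ≃[L] U}
    (h : B.map (fun b => (σ ∘ b : β → U)) = B') (x : U) (hx : x ∈ elts B') :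
    ∃ y ∈ elts B, σ y = x := by
  obtain ⟨b', hb', i, rfl⟩ := hx
  rw [← h, List.mem_map] at hb'
  obtain ⟨b, hb, rfl⟩ := hb'
  exact ⟨b i, ⟨b, hb, i, rfl⟩, rfl⟩

theorem map_fix {B' : List (β → U)} {τ : U ≃[L] U} (h : ∀ x ∈ elts B', τ x = x) :
    B'.map (fun b => (τ ∘ b : β → U)) = B' := by
  conv_rhs => rw [← List.map_id B']
  refine List.map_congr_left fun b hb => ?_
  funext i
  exact h _ ⟨b, hb, i, rfl⟩

/-- two Morley sequences over `D` of the same length are conjugate over `D` -/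
theorem morley_conj (hU : IsMonster κ L U) [Finite β] {q : Set (L.Formula (β ⊕ U))}
    (hq : IsGlobalType q) {D : Set U} (hqD : Invariant D q) (hD : #D < κ)
    (B B' : List (β → U)) (hB : Morley D q B) (hB' : Morley D q B')
    (hlen : B.length = B'.length) :
    ∃ σ : U ≃[L] U, (∀ d ∈ D, σ d = d) ∧ B.map (fun b => (σ ∘ b : β → U)) = B' := by
  induction B generalizing B' with
  | nil =>
    obtain rfl : B' = [] := by
      rcases B' with _ | ⟨b, B'⟩
      · rfl
      · simp at hlen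
    exact ⟨Language.Equiv.refl L U, fun d _ => rfl, rfl⟩
  | cons b B ih =>
    rcases B' with _ | ⟨b', B'⟩
    · simp at hlen
    obtain ⟨σ, hσ, hm⟩ := ih B' hB.2 hB'.2 (by simpa using hlen)
    have h1 := Realizes.map (D' := D ∪ elts B') hq hqD σ hσ (by
      rintro x (hx | hx)
      · exact ⟨x, Or.inl hx, hσ x hx⟩
      · obtain ⟨y, hy, rfl⟩ := elts_map_fix hm x hx
        exact ⟨y, Or.inr hy, rfl⟩) hB.1
    obtain ⟨τ, hτ, hτb⟩ := h1.hom hU hq (small_union hU hD (small_finite hU (elts_finite _))) hB'.1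
    refine ⟨τ.comp σ, fun d hd => ?_, ?_⟩
    · change τ (σ d) = d
      rw [hσ d hd, hτ d (Or.inl hd)]
    · rw [List.map_cons]
      congr 1
      · funext i
        exact hτb i
      · conv_rhs => rw [← map_fix (τ := τ) (B' := B') (fun x hx => hτ x (Or.inr hx)), ← hm,
          List.map_map]
        rfl

/-- pulling a Morley sequence over `C ∪ R` back into `C` -/
theorem pullback (hU : IsMonster κ L U) [Finite β] {q : Set (L.Formula (β ⊕ U))}
    (hq : IsGlobalType q) {A C R : Set U} (hqA : Invariant A q) (hA : #A < κ) (hR : R.Finite)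
    (hAC : A ⊆ C)
    (hC : ∀ F : Finset U, (F : Set U) ⊆ C → ∃ b : β → U, Set.range b ⊆ C ∧
      Realizes (A ∪ F ∪ R) q b)
    (B : List (β → U)) (hB : Morley (C ∪ R) q B) (F : Finset U) (hF : (F : Set U) ⊆ C) :
    ∃ (B' : List (β → U)) (σ : U ≃[L] U), elts B' ⊆ C ∧ (∀ x ∈ A ∪ F ∪ R, σ x = x) ∧
      B.map (fun b => (σ ∘ b : β → U)) = B' := by
  classical
  induction B with
  | nil => exact ⟨[], Language.Equiv.refl L U, by rw [elts_nil]; exact Set.empty_subset _,
      fun _ _ => rfl, rfl⟩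
  | cons b B ih =>
    obtain ⟨B', σ, hB', hσ, hm⟩ := ih hB.2
    obtain ⟨b', hb'C, hb'⟩ := hC (F ∪ (elts_finite B').toFinset) (by
      intro x hx
      simp only [Finset.coe_union, Set.Finite.coe_toFinset] at hx
      rcases hx with hx | hx
      · exact hF hx
      · exact hB' hx)
    have hσA : ∀ x ∈ A, σ x = x := fun x hx => hσ x (Or.inl (Or.inl hx))
    have h1 := Realizes.map (D' := (A ∪ F ∪ R) ∪ elts B') hq hqA σ hσA (by
      rintro x (hx | hx)
      · refine ⟨x, Or.inl ?_, hσ x hx⟩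
        rcases hx with (hx | hx) | hx
        · exact Or.inl (hAC hx)
        · exact Or.inl (hF hx)
        · exact Or.inr hx
      · obtain ⟨y, hy, rfl⟩ := elts_map_fix hm x hx
        exact ⟨y, Or.inr hy, rfl⟩) hB.1
    have h2 : Realizes ((A ∪ F ∪ R) ∪ elts B') q b' := hb'.mono hq (by
      rintro x (((hx | hx) | hx) | hx)
      · exact Or.inl (Or.inl hx)
      · exact Or.inl (Or.inr (by simp; exact Or.inl hx))
      · exact Or.inr hx
      · exact Or.inl (Or.inr (by simp; exact Or.inr hx)))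
    have hsm : #((A ∪ F ∪ R) ∪ elts B' : Set U) < κ :=
      small_union hU (small_union hU (small_union hU hA (small_finite hU F.finite_toSet))
        (small_finite hU hR)) (small_finite hU (elts_finite _))
    obtain ⟨τ, hτ, hτb⟩ := h1.hom hU hq hsm h2
    refine ⟨b' :: B', τ.comp σ, ?_, fun x hx => ?_, ?_⟩
    · rw [elts_cons]
      exact Set.union_subset hb'C hB'
    · change τ (σ x) = x
      rw [hσ x hx, hτ x (Or.inl hx)]
    · rw [List.map_cons]
      congr 1
      · funext i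
        exact hτb i
      · conv_rhs => rw [← map_fix (τ := τ) (B' := B') (fun x hx => hτ x (Or.inr hx)), ← hm,
          List.map_map]
        rfl

/-- NIP for formulas in variables indexed by arbitrary finite types -/
theorem nip_general (hN : IsNIP L U) [Finite β] {δ : Type*} [Finite δ] (φ : L.Formula (β ⊕ δ)) :
    ∃ n : ℕ, ¬ ∃ (a : Fin n → β → U) (b : Set (Fin n) → δ → U),
      ∀ (i : Fin n) (s : Set (Fin n)), φ.Realize (Sum.elim (a i) (b s)) ↔ i ∈ s := by
  obtain ⟨m, ⟨e⟩⟩ := Finite.exists_equiv_fin β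
  obtain ⟨k, ⟨f⟩⟩ := Finite.exists_equiv_fin δ
  obtain ⟨n, hn⟩ := hN m k (φ.relabel (Sum.map e f))
  refine ⟨n, ?_⟩
  rintro ⟨a, b, h⟩
  refine hn ⟨fun i => a i ∘ e.symm, fun s => b s ∘ f.symm, fun i s => ?_⟩
  rw [Formula.realize_relabel, Sum.elim_comp_map, ← h i s]
  have e1 : (a i ∘ e.symm) ∘ e = a i := by funext x; simp
  have e2 : (b s ∘ f.symm) ∘ f = b s := by funext x; simp
  rw [e1, e2]

/-- The main step. -/
theorem main (hU : IsMonster κ L U) (hN : IsNIP L U) [Nonempty U] [Finite α₀] [Finite α₁] [Finite β]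
    {p₀ : Set (L.Formula (α₀ ⊕ U))} {p₁ : Set (L.Formula (α₁ ⊕ U))} {q : Set (L.Formula (β ⊕ U))}
    (hp₀ : IsGlobalType p₀) (hp₁ : IsGlobalType p₁) (hq : IsGlobalType q) {A₀ : Set U}
    (hA₀ : #A₀ < κ) (i₀ : Invariant A₀ p₀) (i₁ : Invariant A₀ p₁) (i₂ : Invariant A₀ q)
    (w₀ : WOrth p₀ q) (w₁ : WOrth p₁ q) {γ : Type*} [Finite γ]
    (φ : L.Formula (((α₀ ⊕ α₁) ⊕ β) ⊕ γ)) (g : γ → U) :
    ∃ (C : Set U) (t : Prop), #C < κ ∧ ∀ a₀ a₁ b, Realizes C p₁ a₁ →
      Realizes (C ∪ Set.range a₁) p₀ a₀ → Realizes C q b →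
      (φ.Realize (Sum.elim (Sum.elim (Sum.elim a₀ a₁) b) g) ↔ t) := by
  classical
  -- a common base containing the parameters
  obtain ⟨A, hAdef⟩ : ∃ A : Set U, A = A₀ ∪ Set.range g := ⟨_, rfl⟩
  have hA : #A < κ := by
    rw [hAdef]
    exact small_union hU hA₀ (small_finite hU (Set.finite_range g))
  have hgA : ∀ i, g i ∈ A := fun i => by rw [hAdef]; exact Or.inr ⟨i, rfl⟩
  have hA₀A : A₀ ⊆ A := by rw [hAdef]; exact Set.subset_union_left
  have j₀ := invariant_mono hA₀A i₀
  have j₁ := invariant_mono hA₀A i₁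
  have j₂ := invariant_mono hA₀A i₂
  -- the formula as a formula in `(x, y)` with parameters `a₁, g`
  let φ₀ : L.Formula ((α₀ ⊕ β) ⊕ (α₁ ⊕ γ)) := φ.relabel
    (Sum.elim (Sum.elim (Sum.elim (Sum.inl ∘ Sum.inl) (Sum.inr ∘ Sum.inl)) (Sum.inl ∘ Sum.inr))
      (Sum.inr ∘ Sum.inr))
  have hφ₀ : ∀ a₀ a₁ b, φ₀.Realize (Sum.elim (Sum.elim a₀ b) (Sum.elim a₁ g)) ↔
      φ.Realize (Sum.elim (Sum.elim (Sum.elim a₀ a₁) b) g) := by
    intro a₀ a₁ b
    rw [Formula.realize_relabel]
    have e : Sum.elim (Sum.elim a₀ b) (Sum.elim a₁ g) ∘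
        (Sum.elim (Sum.elim (Sum.elim (Sum.inl ∘ Sum.inl) (Sum.inr ∘ Sum.inl)) (Sum.inl ∘ Sum.inr))
      (Sum.inr ∘ Sum.inr) : ((α₀ ⊕ α₁) ⊕ β) ⊕ γ → (α₀ ⊕ β) ⊕ (α₁ ⊕ γ)) =
        Sum.elim (Sum.elim (Sum.elim a₀ a₁) b) g := by
      funext i
      rcases i with ((i | i) | i) | i <;> rfl
    rw [e]
  obtain ⟨a₁s, ha₁s⟩ := exists_realizes hU hp₁ A hA
  obtain ⟨t, Fd, ψ, χ, hψ, hχ, hh⟩ := worth_formula hp₀ hq w₀ φ₀ (Sum.elim a₁s g)
  obtain ⟨n, hn⟩ := nip_general hN χ
  -- the closed set `C`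
  have hE : ∀ F : Finset U, #(A ∪ (F : Set U) : Set U) < κ := fun F =>
    small_union hU hA (small_finite hU F.finite_toSet)
  choose D hED hDc hD using fun F : Finset U => wo_set hU hp₁ hq w₁ j₂ (A ∪ (F : Set U))
    Set.subset_union_left (hE F)
  have hDsmall : ∀ F, #(D F) < κ := fun F =>
    (hDc F).trans_lt (max_lt hU.aleph0_lt (add_lt_of_lt hU.aleph0_lt.le (hE F) hU.card_lt))
  choose bF hbF using fun F : Finset U => exists_realizes hU hq (D F) (hDsmall F)
  obtain ⟨C, hAC, hCs, hC⟩ := exists_closure hU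
    (max ℵ₀ ((#A + ℵ₀) + L.card) + ℵ₀) (by
      refine add_lt_of_lt hU.aleph0_lt.le (max_lt hU.aleph0_lt ?_) hU.aleph0_lt
      exact add_lt_of_lt hU.aleph0_lt.le (add_lt_of_lt hU.aleph0_lt.le hA hU.aleph0_lt) hU.card_lt)
    (fun F => D F ∪ Set.range (bF F)) (fun F => by
      refine (mk_union_le _ _).trans (add_le_add ((hDc F).trans ?_) ?_)
      · refine max_le_max le_rfl (add_le_add ?_ le_rfl)
        refine (mk_union_le _ _).trans (add_le_add le_rfl ?_)
        exact (lt_aleph0_of_finite _).le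
      · exact (lt_aleph0_iff_set_finite.2 (Set.finite_range (bF F))).le) A hA
  refine ⟨C, t, hCs, fun a₁0 a₁ b ha₁ ha₀ hb => ?_⟩
  obtain ⟨a₀, rfl⟩ : ∃ a₀, a₀ = a₁0 := ⟨_, rfl⟩
  by_contra hcon
  have hRfin : (Set.range a₁).Finite := Set.finite_range a₁
  have hDC : ∀ F : Finset U, (F : Set U) ⊆ C → D F ⊆ C := fun F hF =>
    Set.subset_union_left.trans (hC F hF)
  have hbC : ∀ F : Finset U, (F : Set U) ⊆ C → Set.range (bF F) ⊆ C := fun F hF =>
    Set.subset_union_right.trans (hC F hF)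
  have hCR : #(C ∪ Set.range a₁ : Set U) < κ := small_union hU hCs (small_finite hU hRfin)
  -- `b` realises `q` over `C a₁`
  have hb' : Realizes (C ∪ Set.range a₁) q b := by
    refine realizes_of_finite hq fun F hF => ?_
    have hF' : ((F.filter (· ∈ C) : Finset U) : Set U) ⊆ C := by
      intro x hx
      simp only [Finset.coe_filter, Set.mem_ofPred_eq] at hx
      exact hx.2
    have h1 := hD (F.filter (· ∈ C)) a₁ b (ha₁.mono hp₁ (hDC _ hF')) (hb.mono hq (hDC _ hF'))
    refine h1.mono hq ?_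
    intro x hx
    rcases hF hx with h | h
    · exact Or.inl (Or.inr (by
        simp only [Finset.coe_filter, Set.mem_ofPred_eq]
        exact ⟨hx, h⟩))
    · exact Or.inr h
  -- transfer of the witnesses of weak orthogonality of `p₀` and `q`
  obtain ⟨σ₀, hσ₀, hσa⟩ := ha₁s.hom hU hp₁ hA (ha₁.mono hp₁ hAC)
  let d₁ : Fd → U := fun i => σ₀ i
  have hψ₁ : ψ.relabel (Sum.map id d₁) ∈ p₀ := (inv_mem hp₀ j₀ σ₀ hσ₀ _ ψ).1 hψ
  have hχ₁ : χ.relabel (Sum.map id d₁) ∈ q := (inv_mem hq j₂ σ₀ hσ₀ _ χ).1 hχ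
  have hh₁ : ∀ x y, ψ.Realize (Sum.elim x d₁) → χ.Realize (Sum.elim y d₁) →
      (φ.Realize (Sum.elim (Sum.elim (Sum.elim x a₁) y) g) ↔ t) := by
    intro x y hx hy
    have h1 := hh (σ₀.symm ∘ x) (σ₀.symm ∘ y) (by
      rw [← StrongHomClass.realize_formula σ₀ ψ, Sum.comp_elim]
      have e : σ₀ ∘ σ₀.symm ∘ x = x := by funext i; simp
      rw [e]
      exact hx) (by
      rw [← StrongHomClass.realize_formula σ₀ χ, Sum.comp_elim]
      have e : σ₀ ∘ σ₀.symm ∘ y = y := by funext i; simp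
      rw [e]
      exact hy)
    rw [hφ₀, ← StrongHomClass.realize_formula σ₀ φ, Sum.comp_elim, Sum.comp_elim,
      Sum.comp_elim] at h1
    have e1 : σ₀ ∘ σ₀.symm ∘ x = x := by funext i; simp
    have e2 : σ₀ ∘ σ₀.symm ∘ y = y := by funext i; simp
    have e3 : σ₀ ∘ a₁s = a₁ := by funext i; exact hσa i
    have e4 : σ₀ ∘ g = g := by funext i; exact hσ₀ _ (hgA i)
    rw [e1, e2, e3, e4] at h1
    exact h1
  -- the operations of `C`
  have hCop : ∀ F : Finset U, (F : Set U) ⊆ C → ∃ b : β → U, Set.range b ⊆ C ∧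
      Realizes (A ∪ F ∪ Set.range a₁) q b := fun F hF =>
    ⟨bF F, hbC F hF, hD F a₁ (bF F) (ha₁.mono hp₁ (hDC F hF)) (hbF F)⟩
  -- the bad pairs
  have hbad : ∀ B : List (β → U), Morley (C ∪ Set.range a₁) q B →
      ∃ x y, Realizes ((C ∪ Set.range a₁) ∪ elts B) p₀ x ∧
        Realizes ((C ∪ Set.range a₁) ∪ elts B) q y ∧
        ¬ (φ.Realize (Sum.elim (Sum.elim (Sum.elim x a₁) y) g) ↔ t) := by
    intro B hB
    -- as a formula
    have hsign : ∃ φ' : L.Formula ((α₀ ⊕ β) ⊕ (α₁ ⊕ γ)), ∀ x y,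
        φ'.Realize (Sum.elim (Sum.elim x y) (Sum.elim a₁ g)) ↔
          ¬ (φ.Realize (Sum.elim (Sum.elim (Sum.elim x a₁) y) g) ↔ t) := by
      by_cases ht : t
      · refine ⟨φ₀.not, fun x y => ?_⟩
        rw [Formula.realize_not, hφ₀]
        tauto
      · refine ⟨φ₀, fun x y => ?_⟩
        rw [hφ₀]
        tauto
    obtain ⟨φ', hφ'⟩ := hsign
    obtain ⟨x, y, hx, hy, hxy⟩ := satPair hU hp₀ hq φ' (Sum.elim a₁ g)
      ((C ∪ Set.range a₁) ∪ elts B)
      (small_union hU hCR (small_finite hU (elts_finite B))) (by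
        rintro (i | i)
        · exact Or.inl (Or.inr ⟨i, rfl⟩)
        · exact Or.inl (Or.inl (hAC (hgA i)))) (by
        intro F hF
        have hF' : ((F.filter (· ∈ C) : Finset U) : Set U) ⊆ C := by
          intro x hx
          simp only [Finset.coe_filter, Set.mem_ofPred_eq] at hx
          exact hx.2
        obtain ⟨B', σ, hB', hσ, hm⟩ := pullback hU hq (A := A) (C := C) (R := Set.range a₁) j₂ hA
          hRfin hAC hCop B hB (F.filter (· ∈ C)) hF'
        have hσA : ∀ x ∈ A, σ x = x := fun x hx => hσ x (Or.inl (Or.inl hx))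
        have hσA' : ∀ x ∈ A, σ.symm x = x := fun x hx => by
          conv_lhs => rw [← hσA x hx]
          simp
        have hcov : ∀ d' ∈ (F : Set U), ∃ d ∈ C ∪ Set.range a₁, σ.symm d = d' := by
          intro d' hd'
          refine ⟨σ d', ?_, by simp⟩
          rcases hF hd' with (h | h) | h
          · rw [hσ d' (Or.inl (Or.inr (by
              simp only [Finset.coe_filter, Set.mem_ofPred_eq]
              exact ⟨hd', h⟩)))]
            exact Or.inl h
          · rw [hσ d' (Or.inr h)]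
            exact Or.inr h
          · refine Or.inl (hB' ?_)
            obtain ⟨b0, hb0, i, rfl⟩ := h
            rw [← hm]
            exact ⟨σ ∘ b0, List.mem_map.2 ⟨b0, hb0, rfl⟩, i, rfl⟩
        refine ⟨σ.symm ∘ a₀, σ.symm ∘ b, Realizes.map hp₀ j₀ σ.symm hσA' hcov ha₀,
          Realizes.map hq j₂ σ.symm hσA' hcov hb', ?_⟩
        rw [hφ']
        intro h2
        apply hcon
        have h3 := StrongHomClass.realize_formula σ φ
          (v := Sum.elim (Sum.elim (Sum.elim (σ.symm ∘ a₀) a₁) (σ.symm ∘ b)) g)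
        rw [Sum.comp_elim, Sum.comp_elim, Sum.comp_elim] at h3
        have e1 : σ ∘ σ.symm ∘ a₀ = a₀ := by funext i; simp
        have e2 : σ ∘ σ.symm ∘ b = b := by funext i; simp
        have e3 : σ ∘ a₁ = a₁ := by funext i; exact hσ _ (Or.inr ⟨i, rfl⟩)
        have e4 : σ ∘ g = g := by funext i; exact hσA _ (hgA i)
        rw [e1, e2, e3, e4] at h3
        rw [h3, h2])
    exact ⟨x, y, hx, hy, (hφ' x y).1 hxy⟩
  -- arbitrary patterns
  have hpat : ∀ s : List Bool, ∃ B : List (β → U), Morley (C ∪ Set.range a₁) q B ∧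
      List.Forall₂ (fun (b : β → U) (e : Bool) => χ.Realize (Sum.elim b d₁) ↔ e = true) B s := by
    intro s
    induction s with
    | nil => exact ⟨[], trivial, List.Forall₂.nil⟩
    | cons e s ih =>
      obtain ⟨B, hB, hBs⟩ := ih
      have hsm : #((C ∪ Set.range a₁) ∪ elts B : Set U) < κ :=
        small_union hU hCR (small_finite hU (elts_finite B))
      have hsm' : #(((C ∪ Set.range a₁) ∪ elts B) ∪ Set.range d₁ : Set U) < κ :=
        small_union hU hsm (small_finite hU (Set.finite_range d₁))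
      cases e with
      | true =>
        obtain ⟨y, hy⟩ := exists_realizes hU hq _ hsm'
        refine ⟨y :: B, ⟨hy.mono hq Set.subset_union_left, hB⟩, List.Forall₂.cons ?_ hBs⟩
        have := (hy.apply hq d₁ (fun i => Or.inr ⟨i, rfl⟩) χ).1 hχ₁
        simpa using this
      | false =>
        obtain ⟨x, y, hx, hy, hxy⟩ := hbad B hB
        obtain ⟨x', hx'⟩ := exists_realizes hU hp₀ _ hsm'
        obtain ⟨τ, hτ, hτx⟩ := hx.hom hU hp₀ hsm (hx'.mono hp₀ Set.subset_union_left)
        have hτA : ∀ x ∈ A, τ x = x := fun x hx => hτ x (Or.inl (Or.inl (hAC hx)))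
        have hy' : Realizes ((C ∪ Set.range a₁) ∪ elts B) q (τ ∘ y) :=
          Realizes.map hq j₂ τ hτA (fun d hd => ⟨d, hd, hτ d hd⟩) hy
        refine ⟨(τ ∘ y) :: B, ⟨hy', hB⟩, List.Forall₂.cons ?_ hBs⟩
        simp only [Bool.false_eq_true, iff_false]
        intro hc
        apply hxy
        rw [← hh₁ x' (τ ∘ y) ((hx'.apply hp₀ d₁ (fun i => Or.inr ⟨i, rfl⟩) ψ).1 hψ₁) hc,
          ← StrongHomClass.realize_formula τ φ, Sum.comp_elim, Sum.comp_elim, Sum.comp_elim]
        have e1 : τ ∘ x = x' := by funext i; exact hτx i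
        have e3 : τ ∘ a₁ = a₁ := by
          funext i; exact hτ _ (Or.inl (Or.inr ⟨i, rfl⟩))
        have e4 : τ ∘ g = g := by funext i; exact hτA _ (hgA i)
        rw [e1, e3, e4]
  -- the contradiction with NIP
  choose B hB hBs using hpat
  let pat : Set (Fin n) → List Bool := fun s => List.ofFn (fun i => decide (i ∈ s))
  have hlenpat : ∀ s, (pat s).length = n := fun s => by simp [pat]
  have hlen : ∀ s, (B (pat s)).length = n := fun s => by
    rw [(hBs (pat s)).length_eq, hlenpat]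
  have jD : Invariant (C ∪ Set.range a₁) q := invariant_mono (hAC.trans Set.subset_union_left) j₂
  choose σ hσ hm using fun s : Set (Fin n) => morley_conj hU hq jD hCR (B (pat s)) (B (pat ∅))
    (hB _) (hB _) (by rw [hlen, hlen])
  apply hn
  refine ⟨fun i => (B (pat ∅)).get (i.cast (hlen ∅).symm), fun s => σ s ∘ d₁, fun i s => ?_⟩
  have h1 : (B (pat ∅)).get (i.cast (hlen ∅).symm) =
      σ s ∘ ((B (pat s)).get (i.cast (hlen s).symm)) := by
    have h2 : (B (pat ∅))[i.1]'(by rw [hlen]; exact i.2) =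
        σ s ∘ ((B (pat s))[i.1]'(by rw [hlen]; exact i.2)) := by
      have h3 : (B (pat ∅))[i.1]? = ((B (pat s)).map (fun b => (σ s ∘ b : β → U)))[i.1]? := by
        rw [hm s]
      rw [List.getElem?_map, List.getElem?_eq_getElem (by rw [hlen]; exact i.2),
        List.getElem?_eq_getElem (by rw [hlen]; exact i.2)] at h3
      simpa using h3
    exact h2
  change χ.Realize (Sum.elim ((B (pat ∅)).get (i.cast (hlen ∅).symm)) (σ s ∘ d₁)) ↔ i ∈ s
  rw [h1, ← Sum.comp_elim, StrongHomClass.realize_formula]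
  have h4 := (List.forall₂_iff_get.1 (hBs (pat s))).2 i.1 (by rw [hlen]; exact i.2)
    (by rw [hlenpat]; exact i.2)
  have h5 : (pat s).get ⟨i.1, by rw [hlenpat]; exact i.2⟩ = decide (i ∈ s) := by
    simp [pat]
  rw [h5] at h4
  simpa using h4

end Pool.Agent.Y562.NWO
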