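import Pool.Agent.Y562.NWO.Main

/-!
# The tensor product of invariant types
-/

set_option autoImplicit false

open FirstOrder FirstOrder.Language FirstOrder.Language.Structure Cardinal

universe u v

namespace Pool.Agent.Y562.NWO

variable {L : FirstOrder.Language.{u, u}} {U : Type u} [L.Structure U] {κ : Cardinal.{u}}
variable {α β α₀ α₁ : Type}

/-- realisations of the tensor product -/
theorem tensor_realizes [Finite α₀] {p₀ : Set (L.Formula (α₀ ⊕ U))}
    {p₁ : Set (L.Formula (α₁ ⊕ U))} {r : Set (L.Formula ((α₀ ⊕ α₁) ⊕ U))}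
    (hp₀ : IsGlobalType p₀) (hp₁ : IsGlobalType p₁) (hr : IsGlobalType r) {A : Set U}
    (ht : IsTensor A p₀ p₁ r) {C : Set U} (hAC : A ⊆ C) {a₀ : α₀ → U} {a₁ : α₁ → U}
    (h : Realizes C r (Sum.elim a₀ a₁)) :
    Realizes C p₁ a₁ ∧ Realizes (C ∪ Set.range a₁) p₀ a₀ := by
  classical
  have hfirst : Realizes C p₁ a₁ := by
    refine realizes_of_finite hp₁ fun F hF ψ => ?_
    obtain ⟨⟨b, hb⟩, hb2⟩ := ht (F : Set U) F.finite_toSet
    have hsub : (F : Set U) ⊆ A ∪ F := Set.subset_union_right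
    let φ : L.Formula ((α₀ ⊕ α₁) ⊕ (A ∪ (F : Set U) : Set U)) :=
      ψ.relabel (Sum.elim (Sum.inl ∘ Sum.inr) (Sum.inr ∘ Set.inclusion hsub))
    have h1 := hb2 b hb φ
    have h2 := h.apply hr (fun u : (A ∪ (F : Set U) : Set U) => (u : U))
      (fun i => i.2.elim (fun hi => hAC hi) (fun hi => hF hi)) φ
    have h3 : φ.Realize (Sum.elim (Sum.elim a₀ a₁)
        (fun u : (A ∪ (F : Set U) : Set U) => (u : U))) ↔
        ψ.Realize (Sum.elim a₁ (fun u : (F : Set U) => (u : U))) := by
      rw [Formula.realize_relabel]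
      have e : Sum.elim (Sum.elim a₀ a₁) (fun u : (A ∪ (F : Set U) : Set U) => (u : U)) ∘
          (Sum.elim (Sum.inl ∘ Sum.inr) (Sum.inr ∘ Set.inclusion hsub)) =
          Sum.elim a₁ (fun u : (F : Set U) => (u : U)) := by
        funext i
        rcases i with i | i <;> rfl
      rw [e]
    have h4 : φ.relabel (Sum.elim (Sum.map id b)
        (fun u : (A ∪ (F : Set U) : Set U) => Sum.inr (u : U))) ∈ p₀ ↔
        ψ.Realize (Sum.elim b (fun u : (F : Set U) => (u : U))) := by
      obtain ⟨N, _, j, a, rfl⟩ := hp₀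
      change (φ.relabel _).Realize _ ↔ _
      rw [Formula.realize_relabel, Formula.realize_relabel, ← j.map_formula ψ]
      have e : ((Sum.elim a j ∘ Sum.elim (Sum.map id b)
          (fun u : (A ∪ (F : Set U) : Set U) => Sum.inr (u : U))) ∘
          Sum.elim (Sum.inl ∘ Sum.inr) (Sum.inr ∘ Set.inclusion hsub)) =
          j ∘ (Sum.elim b (fun u : (F : Set U) => (u : U))) := by
        funext i
        rcases i with i | i <;> rfl
      rw [e]
    rw [← h3, ← h2, h1, h4]
    exact (hb.apply hp₁ (fun u : (F : Set U) => (u : U)) (fun i => hsub i.2) ψ)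
  refine ⟨hfirst, ?_⟩
  refine realizes_of_finite hp₀ fun F hF ψ => ?_
  have hF' : ((F.filter (· ∈ C) : Finset U) : Set U) ⊆ C := by
    intro x hx
    simp only [Finset.coe_filter, Set.mem_ofPred_eq] at hx
    exact hx.2
  obtain ⟨F', hF'def⟩ : ∃ F' : Finset U, F' = F.filter (· ∈ C) := ⟨_, rfl⟩
  rw [← hF'def] at hF'
  have hEC : A ∪ (F' : Set U) ⊆ C := Set.union_subset hAC hF'
  have hρ : ∀ i : F, ∃ k : α₁ ⊕ (A ∪ (F' : Set U) : Set U),
      Sum.elim a₁ (fun u : (A ∪ (F' : Set U) : Set U) => (u : U)) k = (i : U) := by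
    intro i
    rcases hF i.2 with h | h
    · exact ⟨Sum.inr ⟨i, Or.inr (by rw [hF'def]; simp [h])⟩, rfl⟩
    · obtain ⟨k, hk⟩ := h
      exact ⟨Sum.inl k, hk⟩
  choose ρ hρ using hρ
  let φ : L.Formula ((α₀ ⊕ α₁) ⊕ (A ∪ (F' : Set U) : Set U)) :=
    ψ.relabel (Sum.elim (Sum.inl ∘ Sum.inl) ((Equiv.sumAssoc _ _ _).symm ∘ Sum.inr ∘ ρ))
  have h1 := (ht (F' : Set U) F'.finite_toSet).2 a₁ (hfirst.mono hp₁ hEC) φ
  have h2 := h.apply hr (fun u : (A ∪ (F' : Set U) : Set U) => (u : U)) (fun i => hEC i.2) φ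
  have h3 : φ.Realize (Sum.elim (Sum.elim a₀ a₁)
      (fun u : (A ∪ (F' : Set U) : Set U) => (u : U))) ↔
      ψ.Realize (Sum.elim a₀ (fun u : (F : Set U) => (u : U))) := by
    rw [Formula.realize_relabel]
    have e : Sum.elim (Sum.elim a₀ a₁) (fun u : (A ∪ (F' : Set U) : Set U) => (u : U)) ∘
        (Sum.elim (Sum.inl ∘ Sum.inl) ((Equiv.sumAssoc _ _ _).symm ∘ Sum.inr ∘ ρ)) =
        Sum.elim a₀ (fun u : (F : Set U) => (u : U)) := by
      funext i
      rcases i with i | i
      · rfl
      · have := hρ i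
        simp only [Function.comp_apply, Sum.elim_inr]
        rw [← this]
        rcases ρ i with k | k <;> rfl
    rw [e]
  have h4 : φ.relabel (Sum.elim (Sum.map id a₁)
      (fun u : (A ∪ (F' : Set U) : Set U) => Sum.inr (u : U))) ∈ p₀ ↔
      ψ.relabel (Sum.map id (fun u : (F : Set U) => (u : U))) ∈ p₀ := by
    obtain ⟨N, _, j, a, rfl⟩ := hp₀
    rw [mem_tp]
    change (φ.relabel _).Realize _ ↔ _
    rw [Formula.realize_relabel, Formula.realize_relabel]
    have e : ((Sum.elim a j ∘ Sum.elim (Sum.map id a₁)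
        (fun u : (A ∪ (F' : Set U) : Set U) => Sum.inr (u : U))) ∘
        Sum.elim (Sum.inl ∘ Sum.inl) ((Equiv.sumAssoc _ _ _).symm ∘ Sum.inr ∘ ρ)) =
        Sum.elim a (j ∘ (fun u : (F : Set U) => (u : U))) := by
      funext i
      rcases i with i | i
      · rfl
      · have := hρ i
        simp only [Function.comp_apply, Sum.elim_inr]
        rw [← this]
        rcases ρ i with k | k <;> rfl
    rw [e]
  rw [← h3, ← h2, h1, h4]

/-- **Main theorem.** -/
theorem worth_tensor (hU : IsMonster κ L U) (hN : IsNIP L U) [Nonempty U] [Finite α₀] [Finite α₁]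
    [Finite β] {p₀ : Set (L.Formula (α₀ ⊕ U))} {p₁ : Set (L.Formula (α₁ ⊕ U))}
    {q : Set (L.Formula (β ⊕ U))} (hp₀ : IsGlobalType p₀) (hp₁ : IsGlobalType p₁)
    (hq : IsGlobalType q) {A₀ A₁ A₂ : Set U} (hA₀ : #A₀ < κ) (hA₁ : #A₁ < κ) (hA₂ : #A₂ < κ)
    (i₀ : Invariant A₀ p₀) (i₁ : Invariant A₁ p₁) (i₂ : Invariant A₂ q)
    (w₀ : WOrth p₀ q) (w₁ : WOrth p₁ q) {r : Set (L.Formula ((α₀ ⊕ α₁) ⊕ U))}
    (hr : IsTensor A₀ p₀ p₁ r) : WOrth r q := by
  classical
  intro N N' _ _ j j' a b a' b' ha hb ha' hb'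
  ext φ
  obtain ⟨F, φ', hφ'⟩ := finite_params φ
  have hA : #(A₀ ∪ (A₁ ∪ A₂) : Set U) < κ := small_union hU hA₀ (small_union hU hA₁ hA₂)
  obtain ⟨C, t, hC, hCt⟩ := main hU hN hp₀ hp₁ hq hA
    (invariant_mono Set.subset_union_left i₀)
    (invariant_mono (Set.subset_union_left.trans Set.subset_union_right) i₁)
    (invariant_mono (Set.subset_union_right.trans Set.subset_union_right) i₂) w₀ w₁ φ'
    (fun u : F => (u : U))
  have key : ∀ (N : Type u) [L.Structure N] (j : U ↪ₑ[L] N) (a : α₀ ⊕ α₁ → N) (b : β → N),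
      tp j a = r → tp j b = q → (φ ∈ tp j (Sum.elim a b) ↔ t) := by
    intro N _ j a b ha hb
    have hD : #((A₀ ∪ C) ∪ (F : Set U) : Set U) < κ :=
      small_union hU (small_union hU hA₀ hC) (small_finite hU F.finite_toSet)
    have hrg : IsGlobalType r := ⟨N, _, j, a, ha.symm⟩
    have hs : IsGlobalType (tp j (Sum.elim a b)) := ⟨N, _, j, _, rfl⟩
    obtain ⟨v, hv⟩ := exists_realizes hU hs _ hD
    have hv1 : Realizes ((A₀ ∪ C) ∪ (F : Set U)) r (v ∘ Sum.inl) := by
      intro ψ
      have h1 := hv (ψ.relabel (Sum.map Sum.inl id))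
      rw [mem_tp, Formula.realize_relabel, Formula.realize_relabel, Sum.elim_comp_map,
        Sum.elim_comp_map, Sum.elim_comp_inl] at h1
      rw [← ha, mem_tp]
      exact h1
    have hv2 : Realizes ((A₀ ∪ C) ∪ (F : Set U)) q (v ∘ Sum.inr) := by
      intro ψ
      have h1 := hv (ψ.relabel (Sum.map Sum.inr id))
      rw [mem_tp, Formula.realize_relabel, Formula.realize_relabel, Sum.elim_comp_map,
        Sum.elim_comp_map, Sum.elim_comp_inr] at h1
      rw [← hb, mem_tp]
      exact h1
    have hv3 : Realizes ((A₀ ∪ C) ∪ (F : Set U)) r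
        (Sum.elim (v ∘ Sum.inl ∘ Sum.inl) (v ∘ Sum.inl ∘ Sum.inr)) := by
      have e : Sum.elim (v ∘ Sum.inl ∘ Sum.inl) (v ∘ Sum.inl ∘ Sum.inr) = v ∘ Sum.inl := by
        funext i
        rcases i with i | i <;> rfl
      rw [e]
      exact hv1
    obtain ⟨h₁, h₀⟩ := tensor_realizes hp₀ hp₁ hrg hr
      (Set.subset_union_left.trans Set.subset_union_left) hv3
    have hCD : C ⊆ (A₀ ∪ C) ∪ (F : Set U) := Set.subset_union_right.trans Set.subset_union_left
    rw [← hCt _ _ _ (h₁.mono hp₁ hCD) (h₀.mono hp₀ (Set.union_subset_union_left _ hCD))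
      (hv2.mono hq hCD)]
    have h2 := hv.apply hs (fun u : F => (u : U)) (fun i => Or.inr i.2) φ'
    have e2 : Sum.elim (Sum.elim (Sum.elim (v ∘ Sum.inl ∘ Sum.inl) (v ∘ Sum.inl ∘ Sum.inr))
        (v ∘ Sum.inr)) (fun u : F => (u : U)) = Sum.elim v (fun u : F => (u : U)) := by
      funext i
      rcases i with ((i | i) | i) | i <;> rfl
    rw [e2, ← h2, mem_tp]
    exact hφ' N _ j
  rw [key N j a b ha hb, key N' j' a' b' ha' hb']

/-- The tensor product exists. -/
theorem exists_tensor (hU : IsMonster κ L U) [Nonempty U] [Finite α₀] [Finite α₁]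
    {p₀ : Set (L.Formula (α₀ ⊕ U))} {p₁ : Set (L.Formula (α₁ ⊕ U))}
    (hp₀ : IsGlobalType p₀) (hp₁ : IsGlobalType p₁) {A : Set U} (hA : #A < κ)
    (i₀ : Invariant A p₀) :
    ∃ r : Set (L.Formula ((α₀ ⊕ α₁) ⊕ U)), IsGlobalType r ∧ IsTensor A p₀ p₁ r := by
  classical
  let R : Set (L.Formula ((α₀ ⊕ α₁) ⊕ U)) := {φ | ∃ C : Set U, #C < κ ∧ ∀ b : α₁ → U,
    Realizes C p₁ b → φ.relabel (Sum.elim (Sum.map id b) Sum.inr) ∈ p₀}
  -- membership, computed at any realisation over a set containing `A` and the parameters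
  have hmem : ∀ (γ : Type u) (c : γ → U) (φ : L.Formula ((α₀ ⊕ α₁) ⊕ γ)) (D : Set U), A ⊆ D →
      (∀ i, c i ∈ D) → #D < κ → ∀ b : α₁ → U, Realizes D p₁ b →
      ((φ.relabel (Sum.map id c) ∈ R) ↔
        φ.relabel (Sum.elim (Sum.map id b) (fun i => Sum.inr (c i))) ∈ p₀) := by
    intro γ c φ D hAD hc hD b hb
    have hre : ∀ (N : Type u) [L.Structure N] (j : U ↪ₑ[L] N) (a : α₀ → N) (b : α₁ → U),
        (φ.relabel (Sum.elim (Sum.map id b) (fun i => Sum.inr (c i)))).Realize (Sum.elim a j) ↔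
        φ.Realize (Sum.elim (Sum.elim a (j ∘ b)) (j ∘ c)) := by
      intro N _ j a b
      rw [Formula.realize_relabel]
      have e : Sum.elim a j ∘ Sum.elim (Sum.map id b) (fun i => Sum.inr (c i)) =
          Sum.elim (Sum.elim a (j ∘ b)) (j ∘ c) := by
        funext i
        rcases i with (i | i) | i <;> rfl
      rw [e]
    have hre2 : ∀ b : α₁ → U,
        (φ.relabel (Sum.map id c)).relabel (Sum.elim (Sum.map id b) Sum.inr) ∈ p₀ ↔
        φ.relabel (Sum.elim (Sum.map id b) (fun i => Sum.inr (c i))) ∈ p₀ := by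
      intro b
      obtain ⟨N, _, j, a, rfl⟩ := hp₀
      change Formula.Realize _ _ ↔ Formula.Realize _ _
      rw [hre N j a b, Formula.realize_relabel, Formula.realize_relabel]
      have e : (Sum.elim a j ∘ Sum.elim (Sum.map id b) Sum.inr) ∘ Sum.map id c =
          Sum.elim (Sum.elim a (j ∘ b)) (j ∘ c) := by
        funext i
        rcases i with (i | i) | i <;> rfl
      rw [e]
    -- independence of the realisation
    have hind : ∀ b b' : α₁ → U, Realizes D p₁ b → Realizes D p₁ b' →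
        φ.relabel (Sum.elim (Sum.map id b) (fun i => Sum.inr (c i))) ∈ p₀ →
        φ.relabel (Sum.elim (Sum.map id b') (fun i => Sum.inr (c i))) ∈ p₀ := by
      intro b b' hb hb' h
      obtain ⟨σ, hσ, hσb⟩ := hb.hom hU hp₁ hD hb'
      rw [i₀ σ (fun x hx => hσ x (hAD hx))] at h
      obtain ⟨N, _, j, a, rfl⟩ := hp₀
      change Formula.Realize _ _ at h
      change Formula.Realize _ _
      rw [Formula.realize_relabel, Formula.realize_relabel] at h
      rw [hre]
      have e : (Sum.elim a j ∘ Sum.map id σ) ∘ Sum.elim (Sum.map id b) (fun i => Sum.inr (c i)) =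
          Sum.elim (Sum.elim a (j ∘ b')) (j ∘ c) := by
        funext i
        rcases i with (i | i) | i
        · rfl
        · change j (σ (b i)) = j (b' i)
          rw [hσb]
        · change j (σ (c i)) = j (c i)
          rw [hσ _ (hc i)]
      rwa [e] at h
    constructor
    · rintro ⟨C, hC, h⟩
      obtain ⟨b', hb'⟩ := exists_realizes hU hp₁ (C ∪ D) (small_union hU hC hD)
      have h1 := h b' (hb'.mono hp₁ Set.subset_union_left)
      rw [hre2] at h1
      exact hind b' b (hb'.mono hp₁ Set.subset_union_right) hb h1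
    · intro h
      refine ⟨D, hD, fun b' hb' => ?_⟩
      rw [hre2]
      exact hind b b' hb hb' h
  refine ⟨R, ?_, ?_⟩
  · -- `R` is a global type
    have hcomplete : ∀ φ, φ ∈ R ∨ φ.not ∈ R := by
      intro φ
      obtain ⟨F, φ', hφ'⟩ := finite_params φ
      have hD : #(A ∪ (F : Set U) : Set U) < κ := small_union hU hA (small_finite hU F.finite_toSet)
      obtain ⟨b, hb⟩ := exists_realizes hU hp₁ _ hD
      have hb0 : ∀ (ψ : L.Formula ((α₀ ⊕ α₁) ⊕ U)) (ψ' : L.Formula ((α₀ ⊕ α₁) ⊕ F)),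
          (∀ (N : Type u) [L.Structure N] (x : α₀ ⊕ α₁ → N)
            (c : U → N), ψ.Realize (Sum.elim x c) ↔ ψ'.Realize (Sum.elim x (fun i : F => c i))) →
          ψ'.relabel (Sum.elim (Sum.map id b) (fun i : F => Sum.inr (i : U))) ∈ p₀ → ψ ∈ R := by
        intro ψ ψ' hψ h
        refine ⟨A ∪ (F : Set U), hD, fun b' hb' => ?_⟩
        have h1 := (hmem F (fun i => (i : U)) ψ' _ Set.subset_union_left (fun i => Or.inr i.2) hD
          b hb).2 h
        have h2 := (hmem F (fun i => (i : U)) ψ' _ Set.subset_union_left (fun i => Or.inr i.2) hD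
          b' hb').1 h1
        obtain ⟨N, _, j, a, rfl⟩ := hp₀
        change Formula.Realize _ _ at h2
        change Formula.Realize _ _
        rw [Formula.realize_relabel] at h2 ⊢
        have e1 : Sum.elim a j ∘ Sum.elim (Sum.map id b') Sum.inr =
          Sum.elim (Sum.elim a (j ∘ b')) j := by
          funext i
          rcases i with (i | i) | i <;> rfl
        have e2 : Sum.elim a j ∘ Sum.elim (Sum.map id b') (fun i : F => Sum.inr (i : U)) =
          Sum.elim (Sum.elim a (j ∘ b')) (fun i : F => j i) := by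
          funext i
          rcases i with (i | i) | i <;> rfl
        rw [e1, hψ]
        rw [e2] at h2
        exact h2
      by_cases h : φ'.relabel (Sum.elim (Sum.map id b) (fun i : F => Sum.inr (i : U))) ∈ p₀
      · exact Or.inl (hb0 φ φ' hφ' h)
      · refine Or.inr (hb0 φ.not φ'.not (fun N _ x c => ?_) ?_)
        · rw [Formula.realize_not, Formula.realize_not, hφ']
        · obtain ⟨N, _, j, a, rfl⟩ := hp₀
          change Formula.Realize _ _
          change ¬ Formula.Realize _ _ at h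
          rw [Formula.realize_relabel] at h ⊢
          rw [Formula.realize_not]
          exact h
    obtain ⟨N, iN, j, v, hv⟩ := compact R (by
      intro S₀ hS hfin
      have : ∃ C : Set U, #C < κ ∧ ∀ φ ∈ S₀, ∀ b : α₁ → U,
          Realizes C p₁ b → φ.relabel (Sum.elim (Sum.map id b) Sum.inr) ∈ p₀ := by
        choose f hf hf2 using fun θ : S₀ => hS θ.2
        haveI : Finite S₀ := hfin
        refine ⟨⋃ θ, f θ, ?_, fun φ hφ b hb => ?_⟩
        · have : ∀ (ι : Type u) [Finite ι] (f : ι → Set U), (∀ i, #(f i) < κ) →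
              #(⋃ i, f i : Set U) < κ := by
            intro ι _ f hf
            have := Fintype.ofFinite ι
            have h1 : ∀ s : Finset ι, #(⋃ i ∈ s, f i : Set U) < κ := by
              intro s
              induction s using Finset.induction_on with
              | empty => simpa using aleph0_pos.trans hU.aleph0_lt
              | insert i s _ ih =>
                rw [Finset.set_biUnion_insert]
                exact small_union hU (hf i) ih
            have h2 := h1 Finset.univ
            simpa using h2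
          exact this S₀ f hf
        · exact hf2 ⟨φ, hφ⟩ b (hb.mono hp₁ (Set.subset_iUnion f ⟨φ, hφ⟩))
      obtain ⟨C, hC, hCS⟩ := this
      obtain ⟨b, hb⟩ := exists_realizes hU hp₁ C hC
      obtain ⟨ψ, hψ⟩ := exists_conj S₀ hfin
      have h1 : (ψ.relabel (Sum.map (Sum.elim Sum.inl Sum.inr) id)
          |>.relabel (Sum.elim (Sum.map id b) Sum.inr)) ∈ p₀ := by
        obtain ⟨N, _, j, a, rfl⟩ := hp₀
        change Formula.Realize _ _
        rw [Formula.realize_relabel, Formula.realize_relabel, hψ]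
        intro φ hφ
        have h2 := hCS φ hφ b hb
        change Formula.Realize _ _ at h2
        rw [Formula.realize_relabel] at h2
        have e : (Sum.elim a j ∘ Sum.elim (Sum.map id b) Sum.inr) ∘
            Sum.map (Sum.elim Sum.inl Sum.inr) id =
            Sum.elim a j ∘ Sum.elim (Sum.map id b) Sum.inr := by
          funext i
          rcases i with (i | i) | i <;> rfl
        rw [e]
        exact h2
      obtain ⟨a, ha⟩ := exists_of_mem hp₀ (Sum.elim b id)
        (ψ.relabel (Sum.elim (Sum.elim Sum.inl (Sum.inr ∘ Sum.inl)) (Sum.inr ∘ Sum.inr))) (by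
        obtain ⟨N, _, j, a, rfl⟩ := hp₀
        rw [mem_tp]
        change Formula.Realize _ _ at h1
        rw [Formula.realize_relabel, Formula.realize_relabel] at h1
        rw [Formula.realize_relabel]
        have e : Sum.elim a (j ∘ Sum.elim b id) ∘
            Sum.elim (Sum.elim Sum.inl (Sum.inr ∘ Sum.inl)) (Sum.inr ∘ Sum.inr) =
            (Sum.elim a j ∘ Sum.elim (Sum.map id b) Sum.inr) ∘
            Sum.map (Sum.elim Sum.inl Sum.inr) id := by
          funext i
          rcases i with (i | i) | i <;> rfl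
        rw [e]
        exact h1)
      refine ⟨Sum.elim a b, fun φ hφ => ?_⟩
      rw [Formula.realize_relabel] at ha
      have e : Sum.elim a (Sum.elim b id) ∘
            Sum.elim (Sum.elim Sum.inl (Sum.inr ∘ Sum.inl)) (Sum.inr ∘ Sum.inr) =
            Sum.elim (Sum.elim a b) id := by
        funext i
        rcases i with (i | i) | i <;> rfl
      rw [e] at ha
      exact (hψ U _).1 ha φ hφ)
    refine ⟨N, iN, j, v, ?_⟩
    ext φ
    refine ⟨fun h => hv φ h, fun h => ?_⟩
    rcases hcomplete φ with h1 | h1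
    · exact h1
    · have h2 := hv _ h1
      rw [Formula.realize_not] at h2
      exact absurd h h2
  · -- `R` is the tensor product
    intro F hF
    have hD : #(A ∪ F : Set U) < κ := small_union hU hA (small_finite hU hF)
    refine ⟨exists_realizes hU hp₁ _ hD, fun b hb φ => ?_⟩
    exact hmem (A ∪ F : Set U) (fun u => (u : U)) φ (A ∪ F) Set.subset_union_left (fun i => i.2) hD
      b hb

end Pool.Agent.Y562.NWO
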