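import Pool.Agent.Y562.NWO.Basic

/-!
# Global types of a monster model
-/

set_option autoImplicit false

open FirstOrder FirstOrder.Language FirstOrder.Language.Structure Cardinal

universe u v

namespace Pool.Agent.Y562.NWO

variable {L : FirstOrder.Language.{u, u}} {U : Type u} [L.Structure U] {κ : Cardinal.{u}}
variable {α β : Type}

theorem mem_tp {N : Type u} [L.Structure N] (j : U ↪ₑ[L] N) (a : α → N) {γ : Type*} (c : γ → U)
    (ψ : L.Formula (α ⊕ γ)) :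
    ψ.relabel (Sum.map id c) ∈ tp j a ↔ ψ.Realize (Sum.elim a (j ∘ c)) := by
  change (ψ.relabel (Sum.map id c)).Realize _ ↔ _
  rw [Formula.realize_relabel, Sum.elim_comp_map, Function.comp_id]

theorem relabel_mem_iff {p : Set (L.Formula (α ⊕ U))} (hp : IsGlobalType p) {γ δ : Type*}
    (c : γ → U) (f : δ → γ) (ψ : L.Formula (α ⊕ δ)) :
    (ψ.relabel (Sum.map id f)).relabel (Sum.map id c) ∈ p ↔
      ψ.relabel (Sum.map id (c ∘ f)) ∈ p := by
  obtain ⟨N, _, j, a, rfl⟩ := hp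
  rw [mem_tp, mem_tp, Formula.realize_relabel, Sum.elim_comp_map]
  rfl

theorem not_mem_iff {p : Set (L.Formula (α ⊕ U))} (hp : IsGlobalType p) {γ : Type*}
    (c : γ → U) (ψ : L.Formula (α ⊕ γ)) :
    ψ.not.relabel (Sum.map id c) ∈ p ↔ ψ.relabel (Sum.map id c) ∉ p := by
  obtain ⟨N, _, j, a, rfl⟩ := hp
  rw [mem_tp, mem_tp, Formula.realize_not]

theorem exists_of_mem [Finite α] {p : Set (L.Formula (α ⊕ U))} (hp : IsGlobalType p) {γ : Type*}
    (c : γ → U) (ψ : L.Formula (α ⊕ γ)) (h : ψ.relabel (Sum.map id c) ∈ p) :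
    ∃ a : α → U, ψ.Realize (Sum.elim a c) := by
  obtain ⟨N, _, j, a, rfl⟩ := hp
  rw [mem_tp] at h
  exact el_ex j ψ c a h

/-- an instance `ψ(x, c)` belongs to a global type realised on `B ∋ c` by `a` iff `ψ(a, c)`. -/
theorem Realizes.apply {p : Set (L.Formula (α ⊕ U))} (hp : IsGlobalType p) {D : Set U} {a : α → U}
    (h : Realizes D p a) {γ : Type*} (c : γ → U) (hc : ∀ i, c i ∈ D) (ψ : L.Formula (α ⊕ γ)) :
    ψ.relabel (Sum.map id c) ∈ p ↔ ψ.Realize (Sum.elim a c) := by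
  have h1 := h (ψ.relabel (Sum.map id (fun i => (⟨c i, hc i⟩ : D))))
  rw [relabel_mem_iff hp, Formula.realize_relabel, Sum.elim_comp_map] at h1
  exact h1

theorem Realizes.mono {p : Set (L.Formula (α ⊕ U))} (hp : IsGlobalType p) {D D' : Set U}
    (hD : D ⊆ D') {a : α → U} (h : Realizes D' p a) : Realizes D p a := fun ψ =>
  h.apply hp (fun u : D => (u : U)) (fun i => hD i.2) ψ

theorem realizes_of_finite {p : Set (L.Formula (α ⊕ U))} (hp : IsGlobalType p) {D : Set U}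
    {a : α → U} (h : ∀ F : Finset U, (F : Set U) ⊆ D → Realizes (F : Set U) p a) :
    Realizes D p a := by
  classical
  intro φ
  obtain ⟨F, ψ, hψ⟩ := finite_params φ
  have h1 := (h (F.image Subtype.val) (by
    intro x hx
    simp only [Finset.coe_image, Set.mem_image] at hx
    obtain ⟨y, _, rfl⟩ := hx
    exact y.2)).apply hp (fun i : F => (i.1 : U)) (fun i => by simp) ψ
  rw [hψ U a (fun u : D => (u : U)), ← h1]
  obtain ⟨N, _, j, a₀, rfl⟩ := hp
  rw [mem_tp, mem_tp, hψ]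
  rfl

theorem exists_realizes (hU : IsMonster κ L U) [Finite α] {p : Set (L.Formula (α ⊕ U))}
    (hp : IsGlobalType p) (D : Set U) (hD : #D < κ) : ∃ a : α → U, Realizes D p a := by
  obtain ⟨a, ha⟩ := hU.saturated α D hD {ψ | ψ.relabel (Sum.map id (fun u : D => (u : U))) ∈ p} (by
    intro S₀ hS hfin
    obtain ⟨ψ, hψ⟩ := exists_conj S₀ hfin
    have hmem : ψ.relabel (Sum.map id (fun u : D => (u : U))) ∈ p := by
      obtain ⟨N, _, j, a₀, rfl⟩ := hp
      rw [mem_tp, hψ]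
      intro φ hφ
      exact (mem_tp j a₀ _ φ).1 (hS hφ)
    obtain ⟨a, ha⟩ := exists_of_mem hp _ ψ hmem
    exact ⟨a, (hψ U _).1 ha⟩)
  refine ⟨a, fun ψ => ⟨fun h => ha ψ h, fun h => ?_⟩⟩
  by_contra hc
  have := ha ψ.not ((not_mem_iff hp _ ψ).2 hc)
  rw [Formula.realize_not] at this
  exact this h

theorem hom_tuple (hU : IsMonster κ L U) {γ : Type*} (c c' : γ → U) (hc : #(Set.range c) < κ)
    (h : ∀ φ : L.Formula γ, φ.Realize c ↔ φ.Realize c') :
    ∃ σ : U ≃[L] U, ∀ i, σ (c i) = c' i := by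
  choose g hg using fun x : Set.range c => x.2
  obtain ⟨σ, hσ⟩ := hU.homogeneous (Set.range c) (fun x => c' (g x)) hc (by
    intro φ
    have h1 := h (φ.relabel g)
    rw [Formula.realize_relabel, Formula.realize_relabel] at h1
    have e : c ∘ g = fun x : Set.range c => (x : U) := by
      funext x
      exact hg x
    rw [e] at h1
    exact h1)
  refine ⟨σ, fun i => ?_⟩
  have h1 := hσ ⟨c i, i, rfl⟩
  rw [h1]
  have h2 := h (Term.equal (Term.var (g ⟨c i, i, rfl⟩)) (Term.var i))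
  rw [Formula.realize_equal, Formula.realize_equal] at h2
  exact h2.1 (hg ⟨c i, i, rfl⟩)

theorem small_union {D E : Set U} (hU : IsMonster κ L U) (hD : #D < κ) (hE : #E < κ) :
    #(D ∪ E : Set U) < κ :=
  (mk_union_le D E).trans_lt (add_lt_of_lt hU.aleph0_lt.le hD hE)

theorem small_finite {D : Set U} (hU : IsMonster κ L U) (hD : D.Finite) : #D < κ := by
  haveI : Finite D := hD
  exact (lt_aleph0_of_finite D).trans hU.aleph0_lt

theorem Realizes.hom (hU : IsMonster κ L U) [Finite α] {p : Set (L.Formula (α ⊕ U))}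
    (hp : IsGlobalType p) {D : Set U} (hD : #D < κ) {a a' : α → U} (h : Realizes D p a)
    (h' : Realizes D p a') : ∃ σ : U ≃[L] U, (∀ d ∈ D, σ d = d) ∧ ∀ i, σ (a i) = a' i := by
  obtain ⟨σ, hσ⟩ := hom_tuple hU (Sum.elim a (fun u : D => (u : U)))
    (Sum.elim a' (fun u : D => (u : U))) (by
      rw [Set.Sum.elim_range, Subtype.range_val]
      exact small_union hU (small_finite hU (Set.finite_range a)) hD) (fun φ => by
      rw [← h φ, ← h' φ])
  exact ⟨σ, fun d hd => hσ (Sum.inr ⟨d, hd⟩), fun i => hσ (Sum.inl i)⟩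

theorem inv_mem {A : Set U} {p : Set (L.Formula (α ⊕ U))} (hp : IsGlobalType p)
    (hinv : Invariant A p) (σ : U ≃[L] U) (hσ : ∀ x ∈ A, σ x = x) {γ : Type*} (c : γ → U)
    (ψ : L.Formula (α ⊕ γ)) :
    ψ.relabel (Sum.map id c) ∈ p ↔ ψ.relabel (Sum.map id (σ ∘ c)) ∈ p := by
  rw [hinv σ hσ, relabel_mem_iff hp]

/-- automorphisms preserve realisations of invariant types -/
theorem Realizes.map {A : Set U} {p : Set (L.Formula (α ⊕ U))} (hp : IsGlobalType p)
    (hinv : Invariant A p) (σ : U ≃[L] U) (hσ : ∀ x ∈ A, σ x = x) {D D' : Set U}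
    (hD : ∀ d' ∈ D', ∃ d ∈ D, σ d = d') {a : α → U} (h : Realizes D p a) :
    Realizes D' p (σ ∘ a) := by
  intro ψ
  choose f hf using fun d' : D' => hD d' d'.2
  have h1 := h.apply hp f (fun i => (hf i).1) ψ
  have h2 := inv_mem hp hinv σ hσ f ψ
  have e : σ ∘ f = fun u : D' => (u : U) := by
    funext u
    exact (hf u).2
  rw [e] at h2
  rw [← h2, h1, ← StrongHomClass.realize_formula σ ψ]
  rw [Sum.comp_elim, e]

theorem invariant_mono {A A' : Set U} (hA : A ⊆ A') {p : Set (L.Formula (α ⊕ U))}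
    (hinv : Invariant A p) : Invariant A' p := fun σ hσ => hinv σ fun a ha => hσ a (hA ha)

/-- Weak orthogonality, in terms of formulas. -/
theorem worth_formula [Nonempty U] [Finite α] [Finite β] {p : Set (L.Formula (α ⊕ U))}
    {q : Set (L.Formula (β ⊕ U))} (hp : IsGlobalType p) (hq : IsGlobalType q) (h : WOrth p q)
    {γ : Type*} (φ : L.Formula ((α ⊕ β) ⊕ γ)) (c : γ → U) :
    ∃ (t : Prop) (F : Finset U) (ψ : L.Formula (α ⊕ F)) (χ : L.Formula (β ⊕ F)),
      ψ.relabel (Sum.map id (fun u : F => (u : U))) ∈ p ∧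
      χ.relabel (Sum.map id (fun u : F => (u : U))) ∈ q ∧
      ∀ a b, ψ.Realize (Sum.elim a (fun u : F => (u : U))) →
        χ.Realize (Sum.elim b (fun u : F => (u : U))) →
        (φ.Realize (Sum.elim (Sum.elim a b) c) ↔ t) := by
  classical
  suffices h0 : ∃ (t : Prop) (ψ : L.Formula (α ⊕ U)) (χ : L.Formula (β ⊕ U)), ψ ∈ p ∧ χ ∈ q ∧
      ∀ a b, ψ.Realize (Sum.elim a id) → χ.Realize (Sum.elim b id) →
        (φ.Realize (Sum.elim (Sum.elim a b) c) ↔ t) by
    obtain ⟨t, ψ, χ, hψ, hχ, hh⟩ := h0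
    obtain ⟨F₁, ψ', hψ'⟩ := finite_params ψ
    obtain ⟨F₂, χ', hχ'⟩ := finite_params χ
    refine ⟨t, F₁ ∪ F₂,
      ψ'.relabel (Sum.map id (Set.inclusion (Finset.coe_subset.2 Finset.subset_union_left))),
      χ'.relabel (Sum.map id (Set.inclusion (Finset.coe_subset.2 Finset.subset_union_right))),
      ?_, ?_, ?_⟩
    · obtain ⟨N, _, j, a, rfl⟩ := hp
      rw [mem_tp, Formula.realize_relabel, Sum.elim_comp_map]
      exact (hψ' N a j).1 hψ
    · obtain ⟨N, _, j, a, rfl⟩ := hq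
      rw [mem_tp, Formula.realize_relabel, Sum.elim_comp_map]
      exact (hχ' N a j).1 hχ
    · intro a b ha hb
      rw [Formula.realize_relabel, Sum.elim_comp_map] at ha hb
      exact hh a b ((hψ' U a id).2 ha) ((hχ' U b id).2 hb)
  by_contra hcon
  push Not at hcon
  let Sg : L.Formula ((α ⊕ β) ⊕ U) → Set (L.Formula ((α ⊕ β) ⊕ U)) := fun φ' =>
    {θ | ∃ ψ ∈ p, ∃ χ ∈ q, θ = (ψ.relabel (Sum.map Sum.inl id) ⊓
      χ.relabel (Sum.map Sum.inr id)) ⊓ φ'}
  have key : ∀ φ' : L.Formula ((α ⊕ β) ⊕ U), (∀ ψ ∈ p, ∀ χ ∈ q, ∃ a b,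
      ψ.Realize (Sum.elim a id) ∧ χ.Realize (Sum.elim b id) ∧
      φ'.Realize (Sum.elim (Sum.elim a b) id)) →
      ∃ (N : Type u) (_ : L.Structure N) (j : U ↪ₑ[L] N) (a : α → N) (b : β → N),
        tp j a = p ∧ tp j b = q ∧ φ'.Realize (Sum.elim (Sum.elim a b) j) := by
    intro φ' hφ'
    obtain ⟨N, iN, j, v, hv⟩ := compact (Sg φ') (by
      intro S₀ hS hfin
      choose f hf g hg e using fun θ : S₀ => hS θ.2
      haveI : Finite S₀ := hfin
      obtain ⟨ψ, hψ⟩ := exists_conj (Set.range f) (Set.finite_range f)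
      obtain ⟨χ, hχ⟩ := exists_conj (Set.range g) (Set.finite_range g)
      obtain ⟨a, b, ha, hb, hab⟩ := hφ' ψ (by
        obtain ⟨N, _, j, a, rfl⟩ := hp
        refine (hψ N _).2 ?_
        rintro _ ⟨θ, rfl⟩
        exact hf θ) χ (by
        obtain ⟨N, _, j, a, rfl⟩ := hq
        refine (hχ N _).2 ?_
        rintro _ ⟨θ, rfl⟩
        exact hg θ)
      refine ⟨Sum.elim a b, fun θ hθ => ?_⟩
      have e' := e ⟨θ, hθ⟩
      simp only at e'
      rw [e', Formula.realize_inf, Formula.realize_inf, Formula.realize_relabel,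
        Formula.realize_relabel, Sum.elim_comp_map, Sum.elim_comp_map, Sum.elim_comp_inl,
        Sum.elim_comp_inr, Function.comp_id]
      exact ⟨⟨(hψ U _).1 ha _ ⟨_, rfl⟩, (hχ U _).1 hb _ ⟨_, rfl⟩⟩, hab⟩)
    have h1 : ∀ ψ ∈ p, ∀ χ ∈ q, (ψ.Realize (Sum.elim (v ∘ Sum.inl) j) ∧
        χ.Realize (Sum.elim (v ∘ Sum.inr) j)) ∧ φ'.Realize (Sum.elim v j) := by
      intro ψ hψ χ hχ
      have := hv _ ⟨ψ, hψ, χ, hχ, rfl⟩
      rw [Formula.realize_inf, Formula.realize_inf, Formula.realize_relabel,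
        Formula.realize_relabel, Sum.elim_comp_map, Sum.elim_comp_map, Function.comp_id] at this
      exact this
    have hp0 : ∃ ψ, ψ ∈ p := by
      obtain ⟨N, _, j, a, rfl⟩ := hp
      exact ⟨⊤, by change Formula.Realize _ _; simp [Formula.Realize]⟩
    have hq0 : ∃ χ, χ ∈ q := by
      obtain ⟨N, _, j, a, rfl⟩ := hq
      exact ⟨⊤, by change Formula.Realize _ _; simp [Formula.Realize]⟩
    have full : ∀ {δ : Type} (r : Set (L.Formula (δ ⊕ U))) (hr : IsGlobalType r) (w : δ → N),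
        (∀ ψ ∈ r, ψ.Realize (Sum.elim w j)) → tp j w = r := by
      intro δ r hr w hw
      ext ψ
      refine ⟨fun hψ => ?_, fun hψ => hw ψ hψ⟩
      by_contra hc
      have h2 : ψ.not ∈ r := by
        obtain ⟨N, _, j, a, rfl⟩ := hr
        change ψ.not.Realize _
        rw [Formula.realize_not]
        exact hc
      have h3 := hw _ h2
      rw [Formula.realize_not] at h3
      exact h3 hψ
    obtain ⟨ψ₀, hψ₀⟩ := hp0
    obtain ⟨χ₀, hχ₀⟩ := hq0
    refine ⟨N, iN, j, v ∘ Sum.inl, v ∘ Sum.inr, full p hp _ fun ψ hψ => (h1 ψ hψ χ₀ hχ₀).1.1,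
      full q hq _ fun χ hχ => (h1 ψ₀ hψ₀ χ hχ).1.2, ?_⟩
    rw [Sum.elim_comp_inl_inr]
    exact (h1 ψ₀ hψ₀ χ₀ hχ₀).2
  let φ₁ : L.Formula ((α ⊕ β) ⊕ U) := φ.relabel (Sum.map id c)
  obtain ⟨N, _, j, a, b, ha, hb, hab⟩ := key φ₁ (by
    intro ψ hψ χ hχ
    obtain ⟨a, b, ha, hb, hab⟩ := hcon False ψ χ hψ hχ
    refine ⟨a, b, ha, hb, ?_⟩
    rw [Formula.realize_relabel, Sum.elim_comp_map]
    simpa using hab)
  obtain ⟨N', _, j', a', b', ha', hb', hab'⟩ := key φ₁.not (by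
    intro ψ hψ χ hχ
    obtain ⟨a, b, ha, hb, hab⟩ := hcon True ψ χ hψ hχ
    refine ⟨a, b, ha, hb, ?_⟩
    rw [Formula.realize_not, Formula.realize_relabel, Sum.elim_comp_map]
    simpa using hab)
  have h1 := h N N' j j' a b a' b' ha hb ha' hb'
  have h2 : φ₁ ∈ tp j (Sum.elim a b) := hab
  rw [h1] at h2
  rw [Formula.realize_not] at hab'
  exact hab' h2

/-- Realising two types and a formula simultaneously. -/
theorem satPair (hU : IsMonster κ L U) [Finite α] [Finite β] {p : Set (L.Formula (α ⊕ U))}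
    {q : Set (L.Formula (β ⊕ U))} (hp : IsGlobalType p) (hq : IsGlobalType q)
    {γ : Type*} (φ : L.Formula ((α ⊕ β) ⊕ γ)) (g : γ → U) (D : Set U) (hD : #D < κ)
    (hg : ∀ i, g i ∈ D) (h : ∀ F : Finset U, (F : Set U) ⊆ D → ∃ a b, Realizes (F : Set U) p a ∧
      Realizes (F : Set U) q b ∧ φ.Realize (Sum.elim (Sum.elim a b) g)) :
    ∃ a b, Realizes D p a ∧ Realizes D q b ∧ φ.Realize (Sum.elim (Sum.elim a b) g) := by
  classical
  let φ' : L.Formula ((α ⊕ β) ⊕ D) := φ.relabel (Sum.map id (fun i => ⟨g i, hg i⟩))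
  let vl : D → U := fun u => (u : U)
  let S : Set (L.Formula ((α ⊕ β) ⊕ D)) :=
    {θ | ∃ ψ : L.Formula (α ⊕ D), ψ.relabel (Sum.map id vl) ∈ p ∧ ∃ χ : L.Formula (β ⊕ D),
      χ.relabel (Sum.map id vl) ∈ q ∧ θ = (ψ.relabel (Sum.map Sum.inl id) ⊓
      χ.relabel (Sum.map Sum.inr id)) ⊓ φ'}
  obtain ⟨v, hv⟩ := hU.saturated (α ⊕ β) D hD S (by
    intro S₀ hS hfin
    choose f hf g' hg' e using fun θ : S₀ => hS θ.2
    haveI : Finite S₀ := hfin
    obtain ⟨ψ, hψ⟩ := exists_conj (Set.range f) (Set.finite_range f)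
    obtain ⟨χ, hχ⟩ := exists_conj (Set.range g') (Set.finite_range g')
    obtain ⟨F₁, ψ', hψ'⟩ := finite_params ψ
    obtain ⟨F₂, χ', hχ'⟩ := finite_params χ
    obtain ⟨a, b, ha, hb, hab⟩ := h ((F₁ ∪ F₂).image Subtype.val) (by
      intro x hx
      simp only [Finset.coe_image, Set.mem_image] at hx
      obtain ⟨y, _, rfl⟩ := hx
      exact y.2)
    have ha' := ha.apply hp (fun i : F₁ => (i.1 : U)) (fun i => by
      simp only [Finset.coe_image, Set.mem_image]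
      exact ⟨i.1, by simp, rfl⟩) ψ'
    have hb' := hb.apply hq (fun i : F₂ => (i.1 : U)) (fun i => by
      simp only [Finset.coe_image, Set.mem_image]
      exact ⟨i.1, by simp, rfl⟩) χ'
    have ha2 : ψ.Realize (Sum.elim a vl) := by
      rw [hψ' U a vl, ← ha']
      obtain ⟨N, _, j, a₀, rfl⟩ := hp
      rw [mem_tp]
      have h1 : ψ.Realize (Sum.elim a₀ (j ∘ vl)) := by
        refine (hψ N _).2 ?_
        rintro _ ⟨θ, rfl⟩
        exact (mem_tp _ _ _ _).1 (hf θ)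
      exact (hψ' N a₀ (j ∘ vl)).1 h1
    have hb2 : χ.Realize (Sum.elim b vl) := by
      rw [hχ' U b vl, ← hb']
      obtain ⟨N, _, j, a₀, rfl⟩ := hq
      rw [mem_tp]
      have h1 : χ.Realize (Sum.elim a₀ (j ∘ vl)) := by
        refine (hχ N _).2 ?_
        rintro _ ⟨θ, rfl⟩
        exact (mem_tp _ _ _ _).1 (hg' θ)
      exact (hχ' N a₀ (j ∘ vl)).1 h1
    refine ⟨Sum.elim a b, fun θ hθ => ?_⟩
    have e' := e ⟨θ, hθ⟩
    simp only at e'
    rw [e', Formula.realize_inf, Formula.realize_inf, Formula.realize_relabel,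
      Formula.realize_relabel, Sum.elim_comp_map, Sum.elim_comp_map, Sum.elim_comp_inl,
      Sum.elim_comp_inr, Function.comp_id, Formula.realize_relabel, Sum.elim_comp_map]
    exact ⟨⟨(hψ U _).1 ha2 _ ⟨_, rfl⟩, (hχ U _).1 hb2 _ ⟨_, rfl⟩⟩, hab⟩)
  have h1 : ∀ (ψ : L.Formula (α ⊕ D)), ψ.relabel (Sum.map id vl) ∈ p → ∀ (χ : L.Formula (β ⊕ D)),
      χ.relabel (Sum.map id vl) ∈ q → (ψ.Realize (Sum.elim (v ∘ Sum.inl) vl) ∧
      χ.Realize (Sum.elim (v ∘ Sum.inr) vl)) ∧ φ.Realize (Sum.elim v g) := by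
    intro ψ hψ χ hχ
    have := hv _ ⟨ψ, hψ, χ, hχ, rfl⟩
    rw [Formula.realize_inf, Formula.realize_inf, Formula.realize_relabel,
      Formula.realize_relabel, Sum.elim_comp_map, Sum.elim_comp_map, Function.comp_id,
      Formula.realize_relabel, Sum.elim_comp_map] at this
    exact this
  have htop : ∀ {δ : Type} (r : Set (L.Formula (δ ⊕ U))), IsGlobalType r →
      (⊤ : L.Formula (δ ⊕ D)).relabel (Sum.map id vl) ∈ r := by
    rintro δ r ⟨N, _, j, a, rfl⟩
    rw [mem_tp]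
    simp [Formula.Realize]
  have full : ∀ {δ : Type} (r : Set (L.Formula (δ ⊕ U))) (hr : IsGlobalType r) (w : δ → U),
      (∀ ψ : L.Formula (δ ⊕ D), ψ.relabel (Sum.map id vl) ∈ r → ψ.Realize (Sum.elim w vl)) →
      Realizes D r w := by
    intro δ r hr w hw ψ
    refine ⟨hw ψ, fun hψ => ?_⟩
    by_contra hc
    have h3 := hw _ ((not_mem_iff hr vl ψ).2 hc)
    rw [Formula.realize_not] at h3
    exact h3 hψ
  refine ⟨v ∘ Sum.inl, v ∘ Sum.inr, full p hp _ fun ψ hψ => (h1 ψ hψ ⊤ (htop q hq)).1.1,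
    full q hq _ fun χ hχ => (h1 ⊤ (htop p hp) χ hχ).1.2, ?_⟩
  rw [Sum.elim_comp_inl_inr]
  exact (h1 ⊤ (htop p hp) ⊤ (htop q hq)).2

end Pool.Agent.Y562.NWO
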